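import Pool.Agent.H72.CH.Targets

/-!
Row EPC of the board chl_modules: polymorphisms preserve the equivalences.
-/

set_option autoImplicit false
set_option linter.unusedVariables false

namespace Pool.Agent.H34.CH

open Pool.Agent.H72.CH
open Pool.Agent.H68.BP Pool.Agent.H58.SF Pool.Agent.H53.NR
open Pool.Agent.H57.LCI (Pre Realizes)
open Pool.Agent.H57.AR (tp ty Ty HomEq)
open Pool.Agent.H57.EQ (Cx)
open Pool.Agent.H57.LH (Hmg RmV)
open Pool.Agent.H44.KR (HB Amg Tyi TpOn Rz LcN)
open Pool.Agent.H44.FB (CptC EmbC)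
open Function

theorem pf_EPC : T_EPC := by
  intro V ρ σ 𝔹 m lv 𝔸 hV hA hE hL hP hU
  obtain ⟨L, hP⟩ := hP
  intro P _ hPne f hf j x y hxy
  obtain ⟨p0⟩ := hPne
  have hjm : j ≤ m := (hxy p0).trans (hV.lev.pl.le _ _)
  obtain ⟨a, b, hab⟩ := hL j hjm
  have step : ∀ u v : P → V, (∀ p, tp 𝔹 ![u p, v p] = tp 𝔹 ![a, b]) → j ≤ lv (f u) (f v) := by
    intro u v h
    choose g hg1 hg2 using fun p => hE (Fin 2) ![a, b] ![u p, v p] (h p).symm
    have hend : IsHom 𝔸 𝔸 (fun w => f (fun p => g p w)) := by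
      intro l z hz
      exact hf l (fun p i => g p (z i)) (fun p => hA l _ _ hz (hg1 p _ z))
    have h1 := hU _ hend a b
    have e1 : (fun p => g p a) = u := funext fun p => hg2 p 0
    have e2 : (fun p => g p b) = v := funext fun p => hg2 p 1
    rw [hab] at h1
    simp only [e1, e2] at h1
    exact h1
  have hex := fun p => hP j j (fun _ => ![a, b]) (fun _ => ![a, b]) ![x p, y p] (fun _ => hab)
    (fun _ => hab) (le_trans (min_le_left _ _) (hxy p))
  choose X v hX0 hXL hXk using hex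
  have key : ∀ k : ℕ, ∀ hk : k < L + 1, j ≤ lv (f x) (f (fun p => X p ⟨k, hk⟩)) := by
    intro k
    induction k with
    | zero =>
      intro hk
      have h1 : (fun p => X p ⟨0, hk⟩) = x := funext fun p => hX0 p
      rw [h1, hV.lev.pl.self]
      exact hjm
    | succ k ih =>
      intro hk
      have hk' : k < L := by omega
      have h1 := ih (by omega)
      have h2 : j ≤ lv (f (fun p => X p ⟨k, by omega⟩)) (f (fun p => v p ⟨k, hk'⟩)) :=
        step _ _ fun p => (hXk p ⟨k, hk'⟩).1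
      have h3 : j ≤ lv (f (fun p => X p ⟨k + 1, hk⟩)) (f (fun p => v p ⟨k, hk'⟩)) :=
        step _ _ fun p => (hXk p ⟨k, hk'⟩).2
      rw [hV.lev.pl.sym] at h3
      have h4 := (le_min h1 h2).trans (hV.lev.pl.ult _ _ _)
      exact (le_min h4 h3).trans (hV.lev.pl.ult _ _ _)
  have h5 := key L (Nat.lt_succ_self L)
  have h6 : (fun p => X p ⟨L, Nat.lt_succ_self L⟩) = y := funext fun p => hXL p
  rw [h6] at h5
  exact h5

end Pool.Agent.H34.CH
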