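import Pool.Agent.H72.CH.Targets2
import Pool.Agent.H44.KR.Small

/-!
Row KFN of the board chl_modules: one seen coordinate contradicts the identities modulo levels.
-/

set_option autoImplicit false
set_option linter.unusedVariables false

namespace Pool.Agent.H34.CH

open Pool.Agent.H72.CH
open Pool.Agent.H68.BP Pool.Agent.H58.SF Pool.Agent.H53.NR
open Pool.Agent.H57.AR (tp ty Ty HomEq)
open Pool.Agent.H57.LH (Hmg RmV)
open Pool.Agent.H44.KR (HB Amg Tyi TpOn Rz LcN lr T_PAT pf_PAT)
open Pool.Agent.H44.FB (CptC EmbC)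
open Function

theorem pf_KFN : T_KFN := by
  intro V ρ σ 𝔹 m lv 𝔸 hV hN i j a b c a' c' d K h1 h2
  obtain ⟨f, hf, hO⟩ := h2
  obtain ⟨p0, hp⟩ := h1 (Fin 6) f hf (fun _ => a)
  have hab := K.ab
  have him := K.im
  have h3 : lv (f fun _ => a) (f fun _ => b) = lv a b :=
    hN (Fin 6) f hf (lv a b) (by omega) _ _ (fun p => ⟨rfl, K.rab⟩)
  have haa : i ≤ lv a a + 1 := by
    rw [hV.lev.pl.self]
    omega
  have hba : i ≤ lv b a + 1 := by
    rw [hV.lev.pl.sym]
    omega
  have hpc : ∀ r : Fin 3, pat r a a = fun _ => a := by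
    intro r
    funext p
    have h := pat_map (fun _ : Fin 2 => a) r 0 1 p
    exact h.symm
  have hpb : ∀ (r : Fin 3) (p : Fin 6), pat r b a p = (![b, a] : Fin 2 → V) (lr r p) := by
    intro r p
    have h := pat_map (![b, a] : Fin 2 → V) r 0 1 p
    exact h.symm
  have hcl : ∀ (r : Fin 3) (p : Fin 6), i ≤ lv (pat r b a p) a + 1 := by
    intro r p
    rw [hpb]
    generalize lr r p = e
    fin_cases e
    · exact hba
    · exact haa
  obtain ⟨r, hr⟩ := pf_PAT p0 0
  obtain ⟨r', hr'⟩ := pf_PAT p0 1
  have hra : pat r b a p0 = a := by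
    rw [hpb]
    have : lr r p0 = 1 := by
      revert hr
      generalize lr r p0 = e
      intro hr
      fin_cases e
      · exact absurd rfl hr
      · rfl
    rw [this]
    rfl
  have hrb : pat r' b a p0 = b := by
    rw [hpb]
    have : lr r' p0 = 0 := by
      revert hr'
      generalize lr r' p0 = e
      intro hr'
      fin_cases e
      · rfl
      · exact absurd rfl hr'
    rw [this]
    rfl
  have e1 : i ≤ lv (f (fun _ => a)) (f (pat r b a)) := by
    refine hp _ _ (fun p => haa) (fun p => hcl r p) fun p hpp => ?_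
    have : p = p0 := by
      by_contra hne
      exact hpp hne
    rw [this, hra]
  have e2 : i ≤ lv (f (pat r' b a)) (f (fun _ => b)) := by
    refine hp _ _ (fun p => hcl r' p) (fun p => hba) fun p hpp => ?_
    have : p = p0 := by
      by_contra hne
      exact hpp hne
    rw [this, hrb]
  have e3 := hO r a a b a
  have e4 := hO r' a a b a
  rw [← e4, hpc, hpc] at e3
  rw [e3] at e1
  have e5 := (le_min e1 e2).trans (hV.lev.pl.ult _ _ _)
  rw [h3] at e5
  omega

end Pool.Agent.H34.CH
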