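import Pool.Agent.H72.CH.Targets2

/-!
Row ONE of the board chl_modules: one coordinate is seen.
-/

set_option autoImplicit false
set_option linter.unusedVariables false

namespace Pool.Agent.H34.CH

open Pool.Agent.H72.CH
open Pool.Agent.H68.BP Pool.Agent.H58.SF Pool.Agent.H53.NR
open Pool.Agent.H57.AR (tp ty Ty HomEq)
open Pool.Agent.H57.LH (Hmg RmV)
open Pool.Agent.H44.KR (HB Amg Tyi TpOn Rz LcN)
open Pool.Agent.H44.FB (CptC EmbC)
open Function

theorem uns_union {V : Type} {m : ℕ} {lv : V → V → ℕ} (hl : PLev m lv) {i : ℕ} {P : Type}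
    {f : (P → V) → V} {x₀ : P → V} {S S' : Set P} (h : Uns lv i f x₀ S) (h' : Uns lv i f x₀ S') :
    Uns lv i f x₀ (S ∪ S') := by
  classical
  intro x y hx hy hxy
  have h1 : i ≤ lv (f x) (f fun p => if p ∈ S then y p else x p) := by
    refine h _ _ hx (fun p => ?_) fun p hp => ?_
    · by_cases hp : p ∈ S
      · rw [if_pos hp]
        exact hy p
      · rw [if_neg hp]
        exact hx p
    · rw [if_neg hp]
  have h2 : i ≤ lv (f fun p => if p ∈ S then y p else x p) (f y) := by
    refine h' _ _ (fun p => ?_) hy fun p hp => ?_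
    · by_cases hp : p ∈ S
      · rw [if_pos hp]
        exact hy p
      · rw [if_neg hp]
        exact hx p
    · by_cases hpS : p ∈ S
      · rw [if_pos hpS]
      · rw [if_neg hpS]
        exact hxy p fun h => h.elim hpS hp
  exact (le_min h1 h2).trans (hl.ult _ _ _)

theorem pf_ONE : T_ONE := by
  classical
  intro V ρ σ 𝔹 m lv 𝔸 hR hV hA hE hN i j a b c a' c' d K hD P _ _ f hf x0
  have hab := K.ab
  have him := K.im
  by_contra hno
  have hsg : ∀ p0 : P, Uns lv i f x0 {p0} := by
    intro p0
    rcases hD P f hf x0 {p0} with h | h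
    · exact h
    · exact absurd ⟨p0, h⟩ hno
  have hall : ∀ s : Set P, s.Finite → Uns lv i f x0 s := by
    intro s hs
    induction s, hs using Set.Finite.induction_on with
    | empty =>
      intro x y _ _ hxy
      have : x = y := funext fun p => hxy p (Set.notMem_empty p)
      rw [this, hV.lev.pl.self]
      exact him
    | @insert q s _ _ ih =>
      rw [Set.insert_eq]
      exact uns_union hV.lev.pl (hsg q) ih
  have huniv := hall Set.univ Set.finite_univ
  have hy : ∀ p : P, ∃ y : V, tp 𝔹 ![x0 p, y] = tp 𝔹 ![a, b] := by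
    intro p
    have ht : TpOn 𝔹 ({0} : Set (Fin 2)) ![a, b] ![x0 p, x0 p] := by
      refine ⟨?_, ?_⟩
      · rintro u hu v hv
        have hu' : u = 0 := hu
        have hv' : v = 0 := hv
        rw [hu', hv']
        exact ⟨fun _ => rfl, fun _ => rfl⟩
      · intro l z hz
        have e1 : (fun q => (![a, b] : Fin 2 → V) (z q)) = fun _ => a := by
          funext q
          have : z q = 0 := hz q
          rw [this]
          rfl
        have e2 : (fun q => (![x0 p, x0 p] : Fin 2 → V) (z q)) = fun _ => x0 p := by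
          funext q
          have : z q = 0 := hz q
          rw [this]
          rfl
        rw [e1, e2]
        exact iff_of_eq (congrFun (hV.one a (x0 p)) l)
    obtain ⟨x', h1, h2⟩ := hV.hmg (Fin 2) {0} _ _ ht
    refine ⟨x' 1, ?_⟩
    have h3 : x' 0 = x0 p := h2 0 rfl
    have h4 : x' = ![x0 p, x' 1] := by
      funext q
      fin_cases q
      · exact h3
      · rfl
    rw [← h4]
    exact h1
  choose y hy using hy
  have hlv : ∀ p, lv (x0 p) (y p) = lv a b := fun p => hV.inv _ _ (hy p)
  have hrg : ∀ p, Rgd 𝔸 (x0 p) (y p) := fun p =>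
    hR V ρ σ 𝔹 𝔸 hA hE a b (x0 p) (y p) (hy p).symm K.rab
  have h5 : lv (f x0) (f y) = lv a b := hN P f hf (lv a b) (by omega) x0 y
    fun p => ⟨hlv p, hrg p⟩
  have h6 : i ≤ lv (f x0) (f y) := by
    refine huniv x0 y (fun p => ?_) (fun p => ?_) fun p hp => absurd (Set.mem_univ p) hp
    · rw [hV.lev.pl.self]
      omega
    · rw [hV.lev.pl.sym, hlv]
      omega
  omega

end Pool.Agent.H34.CH
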